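import Pool.Agent.Helper90.MZ.StmtsZ

/-! Module ZDM: equality of dimensions. -/

set_option autoImplicit false

namespace Pool.Agent.Helper90.MZ

open Pool.Agent.Helper90.TS

theorem zdm_mv {V G : Type} [Group G] [MulAction G V] (g h : G) (p : Ty V) :
    mv g (mv h p) = mv (g * h) p := by
  unfold mv
  congr 1
  · exact tr_tr g h p.A
  · ext x
    change h⁻¹ • g⁻¹ • x ∈ p.D ↔ (g * h)⁻¹ • x ∈ p.D
    rw [mul_inv_rev, mul_smul]
  · change g • h • p.z = (g * h) • p.z
    rw [mul_smul]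

theorem zdm_cat {V G : Type} [Group G] [MulAction G V] (X : Ctx V G) (hIND : ST_IND)
    (p : Ty V) (hA : p.A.Countable) (M : Set V) (hM : M.Countable) (hAM : p.A ⊆ M) (n k : ℕ)
    (u : Fin n → Fin 1 → V) (y : Fin k → Fin 1 → V)
    (hu : ∀ i, Set.range (u i) ⊆ M ∧ Rl X p ∅ (u i))
    (huI : Ind X (p.A ∪ ∅) (fun i => Set.range (u i)))
    (hy : ∀ i, Rl X p M (y i)) (hyI : Ind X (p.A ∪ M) (fun i => Set.range (y i))) :
    (∀ i, Rl X p ∅ (Fin.append u y i)) ∧
      Ind X (p.A ∪ ∅) (fun i => Set.range (Fin.append u y i)) := by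
  rw [Set.union_empty] at huI ⊢
  rw [Set.union_eq_self_of_subset_left hAM] at hyI
  constructor
  · intro i
    refine Fin.addCases (fun i0 => ?_) (fun i1 => ?_) i
    · rw [Fin.append_left]
      exact (hu i0).2
    · rw [Fin.append_right]
      exact ⟨(hy i1).1, si_empty_right⟩
  · refine ((hIND V G X p.A hA).2.1) (n + k) _ (fun i => Set.countable_range _) ?_
    intro i
    refine Fin.addCases (fun i0 => ?_) (fun i1 => ?_) i
    · have h1 : (⋃ j ∈ {j | j < Fin.castAdd k i0}, Set.range (Fin.append u y j)) ⊆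
          ⋃ j ∈ {j : Fin n | j < i0}, Set.range (u j) := by
        intro x hx
        simp only [Set.mem_iUnion] at hx ⊢
        obtain ⟨j, hj, hx⟩ := hx
        have hj' : j < Fin.castAdd k i0 := hj
        have hjv : j.val < i0.val := hj'
        have hjn : j.val < n := lt_trans hjv i0.2
        refine ⟨⟨j.val, hjn⟩, hjv, ?_⟩
        have e : j = Fin.castAdd k ⟨j.val, hjn⟩ := Fin.ext rfl
        rw [e, Fin.append_left] at hx
        exact hx
      have h2 : SI X p.A (Set.range (u i0)) (⋃ j ∈ {j : Fin n | j < i0}, Set.range (u j)) := by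
        have h3 := huI {i0} {j | j < i0} (Set.disjoint_singleton_left.mpr
          (fun h => lt_irrefl i0 h))
        rw [Set.biUnion_singleton] at h3
        exact h3
      have h4 : Set.range (Fin.append u y (Fin.castAdd k i0)) = Set.range (u i0) := by
        rw [Fin.append_left]
      change SI X p.A (Set.range (Fin.append u y (Fin.castAdd k i0))) _
      rw [h4]
      exact si_right hA (Set.countable_range _)
        (Set.Countable.biUnion (Set.to_countable _) (fun j _ => Set.countable_range _)) h1 h2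
    · have h1 : (⋃ j ∈ {j | j < Fin.natAdd n i1}, Set.range (Fin.append u y j)) ⊆
          M ∪ ⋃ j ∈ {j : Fin k | j < i1}, Set.range (y j) := by
        intro x hx
        simp only [Set.mem_iUnion] at hx
        obtain ⟨j, hj, hx⟩ := hx
        have hj' : j < Fin.natAdd n i1 := hj
        have hjv : j.val < n + i1.val := hj'
        by_cases hjn : j.val < n
        · left
          have e : j = Fin.castAdd k ⟨j.val, hjn⟩ := Fin.ext rfl
          rw [e, Fin.append_left] at hx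
          exact (hu _).1 hx
        · right
          have hlt : j.val - n < k := by
            have := j.2
            omega
          have e : j = Fin.natAdd n ⟨j.val - n, hlt⟩ := by
            apply Fin.ext
            change j.val = n + (j.val - n)
            omega
          rw [e, Fin.append_right] at hx
          simp only [Set.mem_iUnion]
          refine ⟨⟨j.val - n, hlt⟩, ?_, hx⟩
          change j.val - n < i1.val
          omega
      have h2 : SI X M (Set.range (y i1)) (⋃ j ∈ {j : Fin k | j < i1}, Set.range (y j)) := by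
        have h3 := hyI {i1} {j | j < i1} (Set.disjoint_singleton_left.mpr
          (fun h => lt_irrefl i1 h))
        rw [Set.biUnion_singleton] at h3
        exact h3
      have hc : (⋃ j ∈ {j : Fin k | j < i1}, Set.range (y j)).Countable :=
        Set.Countable.biUnion (Set.to_countable _) (fun j _ => Set.countable_range _)
      have h3 : SI X p.A (Set.range (y i1)) (M ∪ ⋃ j ∈ {j : Fin k | j < i1}, Set.range (y j)) :=
        si_trans' (Set.countable_range _) hM hc hAM (hy i1).2 h2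
      have h4 : Set.range (Fin.append u y (Fin.natAdd n i1)) = Set.range (y i1) := by
        rw [Fin.append_right]
      change SI X p.A (Set.range (Fin.append u y (Fin.natAdd n i1))) _
      rw [h4]
      exact si_right hA (Set.countable_range _) (hM.union hc) h1 h3

theorem zdm_fwd (hCC : ST_CC) (hDIM : ST_DIM) (hENIU : ST_ENIU) (hINVA : ST_INVA)
    (hINVB : ST_INVB) (hMDLB : ST_MDLB) (hIND : ST_IND)
    {V G : Type} [Group G] [MulAction G V] (X : Ctx V G) (Q a W M1 : Set V)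
    (q : Ty V) (f : G) (k : ℕ) (hQ : Mdl X Q) (ha : a.Finite) (haW : a ⊆ W) (hWM : W ⊆ M1)
    (hMQ : M1 ⊆ Q) (hM1 : Mdl X M1) (hfQ : tr f M1 ⊆ Q) (hf : f ∈ Fx G W) (hq : EN0 X q)
    (hqM : q.A ⊆ M1) (hbd : Bd X q M1)
    (hor : q.A ⊆ W ∨ (Stn X a q.A ∧ ∀ τ ∈ Fx G a, NO X (mv τ q) q))
    (h : Dmn X q M1 Q k) : Dmn X (mv f q) (tr f M1) Q k := by
  have hSR : SR X q := hq.1
  have hqf : q.A.Finite := hq.2.1
  obtain ⟨F, hF, hFM, hOm⟩ := hbd
  obtain ⟨n, hn⟩ := (hDIM V G X q hSR).2.1 F M1 hqf hF hM1 hqM hFM hOm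
  have h1 : Dmn X q ∅ Q (n + k) :=
    (hDIM V G X q hSR).2.2.1 ∅ M1 Q n k hM1 hQ hMQ hqM (Set.empty_subset _) hn h
  have h2 : Dmn X (mv f q) ∅ (tr f M1) n := by
    have := (hINVB V G X f).2.2.2.1 q ∅ M1 n hqf.countable Set.countable_empty hn
    rwa [tr_empty] at this
  have hSR1 : SR X (mv f q) := (hINVA V G X f).2.2.1 q hSR
  have hqA1 : (mv f q).A ⊆ tr f M1 := tr_mono f hqM
  have h3 : Dmn X (mv f q) ∅ Q (n + k) := by
    rcases hor with hW | ⟨hst, hno⟩
    · have hfq : f ∈ Fx G q.A := fx_anti hW hf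
      obtain ⟨e1, e2, e3, _⟩ := (hINVA V G X f).2.2.2.2.2.2.2.2.2.2.2 q hSR hfq
      obtain ⟨y, hy1, hy2, hy3⟩ := h1
      refine ⟨y, fun i => ⟨(hy1 i).1, (e3 _ _).2 (hy1 i).2⟩, ?_, ?_⟩
      · rw [e1]
        exact hy2
      · intro y0 hy0 hR
        exact hy3 y0 hy0 ((e3 _ _).1 hR)
    · exact hCC V G X Q a q f (n + k) hQ ((haW.trans hWM).trans hMQ) ha
        ((hENIU V G X q).2.2.2.2 hq) (hqM.trans hMQ) (fx_anti haW hf)
        ((tr_mono f hqM).trans hfQ) hst hno h1
  have hM1' : Mdl X (tr f M1) := (hMDLB V G X).2.2.2.2.1 M1 f hM1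
  have hA1c : (mv f q).A.Countable := hSR1.cnt
  have h4 : ∀ (y : Fin (k + 1) → Fin 1 → V),
      (∀ i, Set.range (y i) ⊆ Q ∧ Rl X (mv f q) (tr f M1) (y i)) →
      ¬ Ind X ((mv f q).A ∪ tr f M1) (fun i => Set.range (y i)) := by
    intro y hy hyI
    obtain ⟨u, hu1, hu2, _⟩ := h2
    obtain ⟨g1, g2⟩ := zdm_cat X hIND (mv f q) hA1c (tr f M1) hM1'.1 hqA1 n (k + 1) u y hu1 hu2
      (fun i => (hy i).2) hyI
    have g3 := (hDIM V G X (mv f q) hSR1).1 ∅ Q (n + k) (n + (k + 1)) (Fin.append u y) hQ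
      (hqA1.trans hfQ) (Set.empty_subset _) h3 (fun i => ⟨?_, g1 i⟩) g2
    · omega
    · refine Fin.addCases (fun i0 => ?_) (fun i1 => ?_) i
      · rw [Fin.append_left]
        exact (hu1 i0).1.trans hfQ
      · rw [Fin.append_right]
        exact (hy i1).1
  obtain ⟨j, hj, hD⟩ := (hDIM V G X (mv f q) hSR1).2.2.2.2.2 (tr f M1) Q k hQ
    (hqA1.trans hfQ) hfQ h4
  have h5 : Dmn X (mv f q) ∅ Q (n + j) :=
    (hDIM V G X (mv f q) hSR1).2.2.1 ∅ (tr f M1) Q n j hM1' hQ hfQ hqA1 (Set.empty_subset _) h2 hD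
  have h6 : n + k ≤ n + j := by
    obtain ⟨y, hy1, hy2, _⟩ := h3
    exact (hDIM V G X (mv f q) hSR1).1 ∅ Q (n + j) (n + k) y hQ (hqA1.trans hfQ)
      (Set.empty_subset _) h5 hy1 hy2
  have h7 : j = k := by omega
  rw [← h7]
  exact hD

theorem st_ZDM (hCC : ST_CC) (hDIM : ST_DIM) (hENIU : ST_ENIU) (hINVA : ST_INVA)
    (hINVB : ST_INVB) (hSTN : ST_STN) (hNOEQ : ST_NOEQ) (hMDLB : ST_MDLB) (hIND : ST_IND) :
    ST_ZDM := by
  intro V G _ _ X Q a W M1 q f k hQ ha haW hWM hMQ hM1 hfQ hf hq hqM hbd hor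
  refine ⟨zdm_fwd hCC hDIM hENIU hINVA hINVB hMDLB hIND X Q a W M1 q f k hQ ha haW hWM hMQ hM1
    hfQ hf hq hqM hbd hor, ?_⟩
  intro h
  have hSR : SR X q := hq.1
  have hqf : q.A.Finite := hq.2.1
  have hfa : f ∈ Fx G a := fx_anti haW hf
  have hW' : W ⊆ tr f M1 := by
    have := tr_mono f hWM
    rwa [tr_fx hf] at this
  have hMb : Mdl X (tr f M1) := (hMDLB V G X).2.2.2.2.1 M1 f hM1
  have hor' : (mv f q).A ⊆ W ∨ (Stn X a (mv f q).A ∧
      ∀ τ ∈ Fx G a, NO X (mv τ (mv f q)) (mv f q)) := by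
    rcases hor with hW | ⟨hst, hno⟩
    · left
      change tr f q.A ⊆ W
      rw [tr_fx (fx_anti hW hf)]
      exact hW
    · right
      constructor
      · have := (hSTN V G X).2.2.2.2.2.1 a q.A f ha.countable hqf.countable hst
        rwa [tr_fx hfa] at this
      · intro τ hτ
        rw [zdm_mv]
        have h1 := hno (τ * f) ((Fx G a).mul_mem hτ hfa)
        have h2 := hno f hfa
        exact (hNOEQ V G X).2.2 _ _ _ ((hINVA V G X (τ * f)).2.2.1 q hSR) hSR
          ((hINVA V G X f).2.2.1 q hSR) h1 ((hNOEQ V G X).2.1 _ _ h2)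
  have h8 := zdm_fwd hCC hDIM hENIU hINVA hINVB hMDLB hIND X Q a W (tr f M1) (mv f q) f⁻¹ k hQ ha
    haW hW' hfQ hMb (by rw [tr_inv_tr]; exact hMQ) ((Fx G W).inv_mem hf)
    ((hINVA V G X f).2.2.2.2.2.2.2.2.2.1 q hq) (tr_mono f hqM)
    ((hINVA V G X f).2.2.2.2.2.2.2.1 q M1 hqf.countable hbd) hor' h
  rwa [tr_inv_tr, (hINVA V G X f).1 q] at h8

end Pool.Agent.Helper90.MZ
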